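import Mathlib
import Pool.Agent.H66.MO

set_option autoImplicit false

open Equiv Finset Filter Topology
open scoped Classical

namespace Pool.Agent.Results.MP_d8535d_co.LimitConstant

/-- The reduction of a word: the entry in place `i` becomes its rank, the number of entries that
are at most it. -/
def red {k : ℕ} (w : Fin k → ℕ) : Fin k → ℕ := fun i => (univ.filter (fun j => w j ≤ w i)).card

/-- The word `τ_1 ⋯ τ_n`, with letters `1, …, n`, of a permutation. -/
def word {n : ℕ} (τ : Perm (Fin n)) : Fin n → ℕ := fun i => (τ i : ℕ) + 1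

/-- Minimal overlapping permutations: for no `k` with `2 ≤ k ≤ n - 1` do the first `k` letters and the
last `k` letters have the same reduction. -/
def IsMinimalOverlapping {n : ℕ} (τ : Perm (Fin n)) : Prop :=
  ¬ ∃ k : ℕ, 2 ≤ k ∧ ∃ hk : k < n,
    red (fun i : Fin k => word τ ⟨i, by omega⟩) = red (fun i : Fin k => word τ ⟨n - k + i, by omega⟩)

/-- The proportion `p_n(m)` of minimal overlapping permutations among the permutations of `S_n` that
start with `m`. -/
noncomputable def p (n m : ℕ) : ℝ :=
  (Nat.card {τ : Perm (Fin n) // IsMinimalOverlapping τ ∧ ∃ h : 0 < n, word τ ⟨0, h⟩ = m} : ℝ)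
    / ((n - 1).factorial : ℝ)

open Pool.Agent.H66.MO

lemma red_eq_iff {k : ℕ} (w w' : Fin k → ℕ) : red w = red w' ↔ ∀ i j, (w i < w j ↔ w' i < w' j) := by
  have key : ∀ v : Fin k → ℕ, ∀ i j, red v i < red v j ↔ v i < v j := by
    intro v i j
    unfold red
    constructor
    · intro h
      by_contra hc
      push Not at hc
      refine absurd h (not_lt.2 (card_le_card ?_))
      intro l hl
      simp only [mem_filter, mem_univ, true_and] at hl ⊢
      omega
    · intro h
      apply card_lt_card
      rw [ssubset_iff_of_subset]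
      · refine ⟨j, by simp, ?_⟩
        simp only [mem_filter, mem_univ, true_and]
        omega
      · intro l hl
        simp only [mem_filter, mem_univ, true_and] at hl ⊢
        omega
  constructor
  · intro h i j
    rw [← key w, ← key w', h]
  · intro h
    funext i
    unfold red
    congr 1
    ext j
    simp only [mem_filter, mem_univ, true_and]
    have := h i j
    constructor
    · intro h1
      by_contra hc
      push Not at hc
      have := this.2 hc
      omega
    · intro h1
      by_contra hc
      push Not at hc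
      have := this.1 hc
      omega

lemma imo_iff {n : ℕ} (τ : Perm (Fin n)) : IsMinimalOverlapping τ ↔ MOs (sq τ) n := by
  unfold IsMinimalOverlapping MOs
  push Not
  apply forall_congr'
  intro k
  apply imp_congr_right
  intro h2
  apply forall_congr'
  intro hk
  rw [ne_eq, red_eq_iff, not_iff_not]
  unfold Ov word
  constructor
  · intro h i hi j hj
    have := h ⟨i, hi⟩ ⟨j, hj⟩
    rw [sq_of_lt _ (show i < n by omega), sq_of_lt _ (show j < n by omega),
      sq_of_lt _ (show n - k + i < n by omega), sq_of_lt _ (show n - k + j < n by omega)]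
    simpa using this
  · intro h i j
    have := h i i.2 j j.2
    rw [sq_of_lt _ (show (i : ℕ) < n by omega), sq_of_lt _ (show (j : ℕ) < n by omega),
      sq_of_lt _ (show n - k + i < n by omega), sq_of_lt _ (show n - k + j < n by omega)] at this
    simpa using this

lemma p_eq (N m : ℕ) (hm : m < N + 1) : p (N + 1) (m + 1) = F N ⟨m, hm⟩ (N + 1) := by
  unfold p F
  congr 2
  rw [Nat.card_eq_fintype_card, Fintype.card_subtype, A, filter_filter]
  congr 1
  ext τ
  simp only [mem_filter, mem_univ, true_and]
  rw [imo_iff]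
  constructor
  · rintro ⟨h1, h0, h2⟩
    refine ⟨?_, h1⟩
    unfold word at h2
    apply Fin.ext
    simp only [Nat.add_right_cancel_iff] at h2
    exact h2
  · rintro ⟨h1, h2⟩
    refine ⟨h2, by omega, ?_⟩
    unfold word
    have : (⟨0, by omega⟩ : Fin (N + 1)) = 0 := rfl
    rw [this, h1]

lemma p_one (K : ℕ) : p (K + 1) 1 = (M K : ℝ) / K.factorial := by
  have := p_eq K 0 (by omega)
  rw [zero_add] at this
  rw [this]
  rfl

/-- the terms of the series -/
noncomputable def g (m N k : ℕ) : ℝ :=
  if h : m < N + 1 ∧ k + 2 ≤ N then S N ⟨m, h.1⟩ (k + 2) else 0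

lemma g_nonneg (m N k : ℕ) : 0 ≤ g m N k := by
  unfold g S
  split_ifs
  · positivity
  · exact le_refl _

lemma g_bound (m N k : ℕ) : ‖g m N k‖ ≤ 1 / ((k + 1).factorial : ℝ) := by
  rw [Real.norm_of_nonneg (g_nonneg m N k)]
  unfold g
  split_ifs with h
  · have := S_bound (N := N) ⟨m, h.1⟩ (k := k + 2) (by omega) h.2
    simpa using this
  · positivity

lemma summable_bound : Summable (fun k : ℕ => 1 / ((k + 1).factorial : ℝ)) := by
  have h := Real.summable_pow_div_factorial 1
  simp only [one_pow] at h
  exact (summable_nat_add_iff 1).2 h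

lemma g_sum (m N : ℕ) (hm : m < N + 1) : ∑' k, g m N k = ∑ k ∈ Icc 2 N, S N ⟨m, hm⟩ k := by
  rw [tsum_eq_sum (s := range (N - 1))]
  · have e : Icc 2 N = Ico 2 (N + 1) := by
      ext x
      simp only [mem_Icc, mem_Ico]
      omega
    rw [e, Finset.sum_Ico_eq_sum_range]
    apply sum_congr
    · congr 1
    · intro k hk
      rw [mem_range] at hk
      unfold g
      rw [dif_pos ⟨hm, by omega⟩, add_comm 2 k]
  · intro k hk
    rw [mem_range, not_lt] at hk
    unfold g
    rw [dif_neg]
    omega

lemma g_tendsto (m k : ℕ) :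
    Tendsto (fun N => g m N k) atTop (𝓝 (p (k + 2) 1 / ((k + 2).factorial : ℝ))) := by
  have hf : (0 : ℝ) < ((k + 2).factorial : ℝ) := by exact_mod_cast Nat.factorial_pos _
  have h0 : Tendsto (fun N : ℕ => ((k + 1 : ℕ) : ℝ) * (m : ℝ) / (N : ℝ)) atTop (𝓝 0) :=
    tendsto_const_div_atTop_nhds_zero_nat _
  rw [tendsto_iff_norm_sub_tendsto_zero]
  have h1 : Tendsto (fun N : ℕ => (((k + 1 : ℕ) : ℝ) * (m : ℝ) / (N : ℝ)) / ((k + 2).factorial : ℝ))
      atTop (𝓝 0) := by
    simpa using h0.div_const ((k + 2).factorial : ℝ)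
  apply squeeze_zero' (Eventually.of_forall fun N => norm_nonneg _) _ h1
  filter_upwards [eventually_ge_atTop (m + 2 * k + 4)] with N hN
  have hm : m < N + 1 := by omega
  unfold g
  rw [dif_pos ⟨hm, by omega⟩, S_eq _ (by omega) (by omega), ← sub_div, norm_div,
    Real.norm_of_nonneg hf.le]
  apply div_le_div_of_nonneg_right _ hf.le
  have h2 := F_close (N := N) ⟨m, hm⟩ (K := k + 1) (by omega) (by omega)
  rw [p_one (k + 1)]
  exact h2

/-- For every fixed `m ≥ 1` the proportion `p_n(m)` converges to one and the same limit `L`, which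
satisfies `1 - L = ∑_{k ≥ 2} p_k(1) / k!`. -/
theorem result : ∃ L : ℝ, (∀ m : ℕ, 1 ≤ m → Tendsto (fun n => p n m) atTop (𝓝 L)) ∧
    HasSum (fun k : ℕ => p (k + 2) 1 / ((k + 2).factorial : ℝ)) (1 - L) := by
  have hs : Summable (fun k : ℕ => p (k + 2) 1 / ((k + 2).factorial : ℝ)) := by
    apply Summable.of_norm_bounded summable_bound
    intro k
    have h := g_tendsto 0 k
    exact le_of_tendsto h.norm (Eventually.of_forall fun N => g_bound 0 N k)
  refine ⟨1 - ∑' k : ℕ, p (k + 2) 1 / ((k + 2).factorial : ℝ), ?_, ?_⟩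
  · intro m hm
    obtain ⟨m, rfl⟩ : ∃ j, m = j + 1 := ⟨m - 1, by omega⟩
    rw [← tendsto_add_atTop_iff_nat 1]
    have h1 : Tendsto (fun N => 1 - ∑' k, g m N k) atTop
        (𝓝 (1 - ∑' k : ℕ, p (k + 2) 1 / ((k + 2).factorial : ℝ))) := by
      apply Tendsto.sub tendsto_const_nhds
      exact tendsto_tsum_of_dominated_convergence summable_bound (fun k => g_tendsto m k)
        (Eventually.of_forall fun N k => g_bound m N k)
    refine h1.congr' ?_
    filter_upwards [eventually_ge_atTop m] with N hN
    have hm' : m < N + 1 := by omega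
    rw [p_eq N m hm', F_full, g_sum m N hm']
  · rw [sub_sub_cancel]
    exact hs.hasSum

end Pool.Agent.Results.MP_d8535d_co.LimitConstant
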